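import Pool.Agent.MP_ed9623_an.H77.SpecW

/-! Two one-dimensional lemmas on weak derivatives. -/

open MeasureTheory Filter Topology Set
open scoped ContDiff

namespace Pool.Agent.MP_ed9623_an.H77

namespace G1

theorem prim {ψ : ℝ → ℝ} (hψ : ContDiff ℝ ∞ ψ) {a b : ℝ} (h : ∀ x, x ∉ Icc a b → ψ x = 0) :
    ∃ Φ : ℝ → ℝ, ContDiff ℝ ∞ Φ ∧ (∀ y, HasDerivAt Φ (ψ y) y) ∧ (∀ y < a, Φ y = 0) ∧
      ∀ y, b ≤ y → Φ y = ∫ x, ψ x := by
  have hc := hψ.continuous
  have hd : ∀ y, HasDerivAt (fun y => ∫ x in (a - 1)..y, ψ x) (ψ y) y := fun y =>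
    intervalIntegral.integral_hasDerivAt_right (hc.intervalIntegrable _ _)
      (hc.stronglyMeasurableAtFilter _ _) hc.continuousAt
  refine ⟨_, contDiff_infty_iff_deriv.2 ⟨fun y => (hd y).differentiableAt, ?_⟩, hd,
    fun y hy => ?_, fun y hy => ?_⟩
  · rwa [show deriv (fun y => ∫ x in (a - 1)..y, ψ x) = ψ from funext fun y => (hd y).deriv]
  · exact intervalIntegral.integral_zero_ae (Eventually.of_forall fun x hx => h x fun c =>
      absurd (c.1.trans hx.2) (not_le.2 (max_lt (by linarith) hy)))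
  · refine intervalIntegral.integral_eq_integral_of_support_subset fun x hx => ?_
    have : x ∈ Icc a b := by_contra fun c => hx (h x c)
    exact ⟨by linarith [this.1], this.2.trans hy⟩

theorem test {β : ℝ → ℝ} {a b : ℝ} (h : ∀ x, x ∉ Icc a b → β x = 0) :
    HasCompactSupport β ∧ tsupport β ⊆ Icc a b :=
  ⟨HasCompactSupport.intro isCompact_Icc h,
    closure_minimal (fun x hx => by_contra fun c => hx (h x c)) isClosed_Icc⟩

theorem int_mul {s : Set ℝ} {T g : ℝ → ℝ} (hT : IntegrableOn T s) (hg : Continuous g)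
    (hc : HasCompactSupport g) : IntegrableOn (fun y => T y * g y) s := by
  obtain ⟨C, hC⟩ := hg.bounded_above_of_compact_support hc
  exact hT.mul_bdd hg.aestronglyMeasurable (Eventually.of_forall hC)

theorem one (a b : ℝ) (T : ℝ → ℝ) (hT : IntegrableOn T (Ioo a b))
    (h : ∀ β : ℝ → ℝ, ContDiff ℝ ∞ β → HasCompactSupport β → tsupport β ⊆ Ioo a b →
      ∫ y in Ioo a b, T y * deriv β y = 0) : ∃ c : ℝ, ∀ᵐ y, y ∈ Ioo a b → T y = c := by
  rcases le_or_gt b a with hab | hab
  · exact ⟨0, Eventually.of_forall fun y hy => absurd (hy.1.trans hy.2) (not_lt.2 hab)⟩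
  let φ : ContDiffBump ((a + b) / 2) := ⟨(b - a) / 8, (b - a) / 4, by linarith, by linarith⟩
  have hφ : tsupport (φ.normed volume) ⊆ Ioo a b := by
    rw [φ.tsupport_normed_eq, Real.closedBall_eq_Icc]
    exact Icc_subset_Ioo (by simp only [φ]; linarith) (by simp only [φ]; linarith)
  refine ⟨∫ y in Ioo a b, T y * φ.normed volume y, ?_⟩
  have hI : IntegrableOn (fun y => T y - ∫ y in Ioo a b, T y * φ.normed volume y) (Ioo a b) :=
    hT.sub (integrableOn_const (by simp))
  have key := isOpen_Ioo.ae_eq_zero_of_integral_contDiff_smul_eq_zero hI.locallyIntegrableOn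
    fun g hg hc hs => ?_
  · filter_upwards [key] with y hy hm using sub_eq_zero.1 (hy hm)
  have hK : IsCompact (tsupport g ∪ tsupport (φ.normed volume)) :=
    hc.union φ.hasCompactSupport_normed
  have hn : (tsupport g ∪ tsupport (φ.normed volume)).Nonempty :=
    ⟨(a + b) / 2, Or.inr (by
      rw [φ.tsupport_normed_eq]
      exact Metric.mem_closedBall_self φ.rOut_pos.le)⟩
  obtain ⟨a', ha⟩ := hK.exists_isLeast hn
  obtain ⟨b', hb⟩ := hK.exists_isGreatest hn
  obtain ⟨β, h1, h2, h3, h4⟩ := prim (ψ := fun y => g y - (∫ x, g x) * φ.normed volume y)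
    (hg.sub (contDiff_const.mul φ.contDiff_normed)) (a := a') (b := b') fun x hx => by
      have : x ∉ tsupport g ∪ tsupport (φ.normed volume) := fun c => hx ⟨ha.2 c, hb.2 c⟩
      rw [image_eq_zero_of_notMem_tsupport fun c => this (Or.inl c),
        image_eq_zero_of_notMem_tsupport fun c => this (Or.inr c), mul_zero, sub_zero]
  have h5 := test (β := β) (a := a') (b := b') fun x hx => by
    rcases lt_or_ge x a' with c | c
    · exact h3 x c
    · rw [h4 x (le_of_not_ge fun c' => hx ⟨c, c'⟩), integral_sub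
        (hg.continuous.integrable_of_hasCompactSupport hc) (φ.integrable_normed.const_mul _),
        integral_const_mul, φ.integral_normed, mul_one, sub_self]
  have h6 := h β h1 h5.1 (h5.2.trans (Icc_subset_Ioo (union_subset hs hφ ha.1).1
    (union_subset hs hφ hb.1).2))
  have h7 : ∀ f : ℝ → ℝ, ∫ y in Ioo a b, g y * f y = ∫ y, g y * f y := fun f =>
    setIntegral_eq_integral_of_forall_compl_eq_zero fun x hx => by
      rw [image_eq_zero_of_notMem_tsupport fun c => hx (hs c), zero_mul]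
  have h8 := int_mul hT hg.continuous hc
  simp only [(h2 _).deriv, mul_sub, mul_left_comm (T _)] at h6
  rw [integral_sub h8 ((int_mul hT φ.continuous_normed φ.hasCompactSupport_normed).const_mul _),
    integral_const_mul] at h6
  simp only [smul_eq_mul]
  rw [← h7, ← h6]
  simp only [mul_sub, mul_comm (g _) (T _)]
  rw [integral_sub h8 ((hg.continuous.integrable_of_hasCompactSupport hc).integrableOn.mul_const _),
    h7, integral_mul_const]

/-- The increment of the mollified function. -/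
theorem step {r δ M s t : ℝ} {E k : ℝ → ℝ} (hδ : δ ≤ r) (hE : IntegrableOn E (Ioo 0 r))
    (h0 : ∀ᵐ s, s ∈ Ioo 0 r → 0 ≤ E s) (hk : IntegrableOn k (Ioo 0 r)) (hk0 : ∀ s, 0 ≤ k s)
    (h : ∀ β : ℝ → ℝ, ContDiff ℝ ∞ β → HasCompactSupport β → tsupport β ⊆ Ioo 0 r →
      (∀ s, 0 ≤ β s) → -∫ s in Ioo 0 r, E s * deriv β s ≤ ∫ s in Ioo 0 r, k s * E s * β s)
    (hs : ∫ x in Ioo 0 r, (Ioo 0 δ).indicator k x ≤ 1 / 2) (hM0 : 0 ≤ M)
    (hM : ∀ᵐ s, s ∈ Ioo 0 δ → E s ≤ M) (φ : ContDiffBump (0 : ℝ)) (hst : s ≤ t)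
    (h1 : φ.rOut < s) (h2 : φ.rOut < δ - t) :
    (∫ y, φ.normed volume (t - y) • (Ioo 0 r).indicator E y) -
      ∫ y, φ.normed volume (s - y) • (Ioo 0 r).indicator E y ≤ M / 2 := by
  obtain ⟨Φ, p1, p2, p3, p4⟩ := prim (ψ := φ.normed volume) φ.contDiff_normed (a := -φ.rOut)
    (b := φ.rOut) fun x hx => image_eq_zero_of_notMem_tsupport (by
      rwa [φ.tsupport_normed_eq, Real.closedBall_eq_Icc, zero_sub, zero_add])
  rw [φ.integral_normed] at p4
  have mono : Monotone Φ := monotone_of_deriv_nonneg (fun y => (p2 y).differentiableAt) fun y => by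
    rw [(p2 y).deriv]
    exact φ.nonneg_normed y
  have b0 : ∀ y, 0 ≤ Φ y := fun y =>
    (p3 (min y (-φ.rOut - 1)) (min_lt_of_right_lt (by linarith))).ge.trans (mono (min_le_left _ _))
  have b1 : ∀ y, Φ y ≤ 1 := fun y =>
    (mono (le_max_left y φ.rOut)).trans (p4 _ (le_max_right _ _)).le
  have hz : ∀ x, x ∉ Icc (s - φ.rOut) (t + φ.rOut) → Φ (x - s) - Φ (x - t) = 0 := fun x hx => by
    rcases lt_or_ge x (s - φ.rOut) with c | c
    · rw [p3 _ (by linarith), p3 _ (by linarith), sub_self]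
    · have : t + φ.rOut < x := lt_of_not_ge fun c' => hx ⟨c, c'⟩
      rw [p4 _ (by linarith), p4 _ (by linarith), sub_self]
  have hd : ∀ y, deriv (fun x => Φ (x - s) - Φ (x - t)) y =
      φ.normed volume (s - y) - φ.normed volume (t - y) := fun y => by
    rw [← φ.normed_neg (s - y), ← φ.normed_neg (t - y), neg_sub, neg_sub]
    exact (((p2 _).comp_sub_const y s).fun_sub ((p2 _).comp_sub_const y t)).deriv
  have nn : ∀ x, 0 ≤ Φ (x - s) - Φ (x - t) := fun x => sub_nonneg.2 (mono (by linarith))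
  have q := h _ ((p1.comp (contDiff_id.sub contDiff_const)).sub
    (p1.comp (contDiff_id.sub contDiff_const))) (test hz).1
    ((test hz).2.trans (Icc_subset_Ioo (by linarith) (by linarith))) nn
  have hi : ∀ x, IntegrableOn (fun y => E y * φ.normed volume (x - y)) (Ioo 0 r) := fun x =>
    int_mul hE (φ.continuous_normed.comp (continuous_const.sub continuous_id))
      (φ.hasCompactSupport_normed.comp_homeomorph (Homeomorph.subLeft x))
  have he : ∀ x, ∫ y, φ.normed volume (x - y) • (Ioo 0 r).indicator E y =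
      ∫ y in Ioo 0 r, E y * φ.normed volume (x - y) := fun x => by
    rw [← integral_indicator measurableSet_Ioo]
    refine integral_congr_ae (Eventually.of_forall fun y => ?_)
    by_cases c : y ∈ Ioo 0 r <;> simp [c, mul_comm]
  have q' : -∫ y in Ioo 0 r, E y * deriv (fun x => Φ (x - s) - Φ (x - t)) y ≤
      ∫ y in Ioo 0 r, k y * E y * (Φ (y - s) - Φ (y - t)) := q
  simp only [hd, mul_sub (E _)] at q'
  rw [integral_sub (hi s) (hi t), neg_sub] at q'
  rw [he, he]
  refine q'.trans ((integral_mono_of_nonneg ?_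
    ((hk.indicator measurableSet_Ioo (t := Ioo 0 δ)).mul_const M) ?_).trans ?_)
  · filter_upwards [ae_restrict_mem measurableSet_Ioo, ae_restrict_of_ae h0] with y a b
    exact mul_nonneg (mul_nonneg (hk0 y) (b a)) (nn y)
  · filter_upwards [ae_restrict_of_ae hM] with y b
    by_cases c : y ∈ Ioo 0 δ
    · rw [indicator_of_mem c, mul_assoc]
      refine mul_le_mul_of_nonneg_left ?_ (hk0 y)
      nlinarith [b c, nn y, b0 (y - t), b1 (y - s)]
    · rw [indicator_of_notMem c, hz y fun c' => c ⟨by linarith [c'.1], by linarith [c'.2]⟩,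
        mul_zero, zero_mul]
  · rw [integral_mul_const]
    nlinarith

theorem two (r C : ℝ) (E k : ℝ → ℝ) (hr : 0 < r)
    (hE : AEStronglyMeasurable E (volume.restrict (Ioo 0 r)))
    (hC : ∀ᵐ s, s ∈ Ioo 0 r → 0 ≤ E s ∧ E s ≤ C * s) (hk : IntegrableOn k (Ioo 0 r))
    (hk0 : ∀ s, 0 ≤ k s)
    (h : ∀ β : ℝ → ℝ, ContDiff ℝ ∞ β → HasCompactSupport β → tsupport β ⊆ Ioo 0 r →
      (∀ s, 0 ≤ β s) → -∫ s in Ioo 0 r, E s * deriv β s ≤ ∫ s in Ioo 0 r, k s * E s * β s) :
    ∃ δ : ℝ, 0 < δ ∧ ∀ᵐ s, s ∈ Ioo 0 δ → E s = 0 := by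
  have hb : ∀ᵐ s, s ∈ Ioo 0 r → E s ≤ |C| * s := hC.mono fun s a b =>
    (a b).2.trans (mul_le_mul_of_nonneg_right (le_abs_self C) b.1.le)
  have hb' : ∀ᵐ s, s ∈ Ioo 0 r → E s ≤ |C| * r := hb.mono fun s a b =>
    (a b).trans (mul_le_mul_of_nonneg_left b.2.le (abs_nonneg C))
  have hI : IntegrableOn E (Ioo 0 r) := by
    refine Integrable.mono' (integrableOn_const (C := |C| * r) (by simp)) hE ?_
    filter_upwards [ae_restrict_mem measurableSet_Ioo, ae_restrict_of_ae hC, ae_restrict_of_ae hb']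
      with s a b c
    rw [Real.norm_of_nonneg (b a).1]
    exact c a
  have ht : Tendsto (fun δ : ℝ => ∫ x in Ioo 0 δ, k x ∂volume.restrict (Ioo 0 r)) (𝓝[>] 0) (𝓝 0) := by
    refine Integrable.tendsto_setIntegral_nhds_zero hk (tendsto_of_tendsto_of_tendsto_of_le_of_le
      tendsto_const_nhds (h := fun δ : ℝ => ENNReal.ofReal δ) ?_ (fun _ => zero_le) fun δ => ?_)
    · simpa using (ENNReal.continuous_ofReal.tendsto 0).mono_left nhdsWithin_le_nhds
    · simpa using Measure.restrict_apply_le (μ := volume) (Ioo 0 r) (Ioo 0 δ)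
  obtain ⟨δ, hδ, h1⟩ := ((ht.eventually (ge_mem_nhds one_half_pos)).and
    (Ioo_mem_nhdsGT hr)).exists
  rw [← integral_indicator measurableSet_Ioo] at hδ
  let φ : ℕ → ContDiffBump (0 : ℝ) := fun n =>
    ⟨1 / ((n : ℝ) + 1) / 2, 1 / ((n : ℝ) + 1), by positivity, half_lt_self (by positivity)⟩
  have hφ : Tendsto (fun n => (φ n).rOut) atTop (𝓝 0) := tendsto_one_div_add_atTop_nhds_zero_nat
  have hA := ContDiffBump.ae_convolution_tendsto_right_of_locallyIntegrable hφ (K := 2)
    (Eventually.of_forall fun n => by simp only [φ]; linarith)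
    ((integrable_indicator_iff measurableSet_Ioo).2 hI).locallyIntegrable
  simp only [convolution_lsmul_swap] at hA
  have key : ∀ n : ℕ, ∀ᵐ s, s ∈ Ioo 0 δ → E s ≤ |C| * r * (1 / 2) ^ n := by
    intro n
    induction n with
    | zero => exact hb'.mono fun s a b => by simpa using a ⟨b.1, b.2.trans h1.2⟩
    | succ n ih =>
      filter_upwards [hA] with t a b
      refine le_of_forall_pos_le_add fun ε hε => ?_
      obtain ⟨s, ⟨c, d⟩, e⟩ := (Measure.dense_of_ae (hA.and hb)).exists_between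
        (lt_min b.1 (show 0 < ε / (|C| + 1) by positivity))
      obtain ⟨e1, e2⟩ := lt_min_iff.1 e.2
      have t' : t ∈ Ioo 0 r := ⟨b.1, b.2.trans h1.2⟩
      have s' : s ∈ Ioo 0 r := ⟨e.1, e1.trans t'.2⟩
      have f := le_of_tendsto (a.sub c) ((hφ.eventually (gt_mem_nhds e.1)).mp
        ((hφ.eventually (gt_mem_nhds (sub_pos.2 b.2))).mono fun i i1 i2 =>
          step h1.2.le hI (hC.mono fun s a b => (a b).1) hk hk0 h hδ (by positivity) ih (φ i)
            e1.le i2 i1))
      rw [indicator_of_mem t', indicator_of_mem s'] at f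
      rw [lt_div_iff₀ (by positivity)] at e2
      rw [pow_succ]
      nlinarith [d s', e.1]
  refine ⟨δ, h1.1, ?_⟩
  filter_upwards [ae_all_iff.2 key, hC] with s a b c
  have := ge_of_tendsto' ((tendsto_pow_atTop_nhds_zero_of_lt_one (r := (1 / 2 : ℝ)) (by norm_num)
    (by norm_num)).const_mul (|C| * r)) fun n => a n c
  exact le_antisymm (by simpa using this) (b ⟨c.1, c.2.trans h1.2⟩).1

end G1

theorem rowG1 : OfG1 := ⟨G1.one, G1.two⟩

end Pool.Agent.MP_ed9623_an.H77
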